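import Pool.Agent.H14R3.KK.Defs
import Pool.Agent.H14R3.KK.S.HEINT

/-! Task WICK of project KK (MP_d47e08_pr). -/

set_option autoImplicit false
open MeasureTheory ProbabilityTheory Filter Topology

namespace KK14

namespace WICKx

theorem he_step (m : ℕ) (x : ℝ) : x * He m x = He (m + 1) x + m * He (m - 1) x := by
  cases m with
  | zero => simp [He]
  | succ m =>
    rw [Nat.add_sub_cancel]
    show x * He (m + 1) x = (x * He (m + 1) x - (m + 1) * He m x) + ((m + 1 : ℕ) : ℝ) * He m x
    push_cast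
    ring

theorem prod_step {ι : Type*} [Fintype ι] [DecidableEq ι] (O : ι → ℕ) (Z : ι → ℝ) (S : ι) :
    Z S * ∏ T, He (O T) (Z T) = ∏ T, He ((O + Pi.single S 1 : ι → ℕ) T) (Z T) +
      O S * ∏ T, He ((O - Pi.single S 1 : ι → ℕ) T) (Z T) := by
  have e1 := Finset.mul_prod_erase Finset.univ (fun T => He (O T) (Z T)) (Finset.mem_univ S)
  have e2 := Finset.mul_prod_erase Finset.univ
    (fun T => He ((O + Pi.single S 1 : ι → ℕ) T) (Z T)) (Finset.mem_univ S)
  have e3 := Finset.mul_prod_erase Finset.univ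
    (fun T => He ((O - Pi.single S 1 : ι → ℕ) T) (Z T)) (Finset.mem_univ S)
  have e4 : ∏ T ∈ Finset.univ.erase S, He ((O + Pi.single S 1 : ι → ℕ) T) (Z T) =
      ∏ T ∈ Finset.univ.erase S, He (O T) (Z T) := by
    refine Finset.prod_congr rfl fun T hT => ?_
    rw [Pi.add_apply, Pi.single_eq_of_ne (Finset.ne_of_mem_erase hT), add_zero]
  have e5 : ∏ T ∈ Finset.univ.erase S, He ((O - Pi.single S 1 : ι → ℕ) T) (Z T) =
      ∏ T ∈ Finset.univ.erase S, He (O T) (Z T) := by
    refine Finset.prod_congr rfl fun T hT => ?_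
    rw [Pi.sub_apply, Pi.single_eq_of_ne (Finset.ne_of_mem_erase hT), Nat.sub_zero]
  rw [← e1, ← e2, ← e3, e4, e5, Pi.add_apply, Pi.sub_apply, Pi.single_eq_same, ← mul_assoc,
    he_step]
  ring

end WICKx

open WICKx in
theorem WICK (n r l k : ℕ) (I J : Sub n l) (O : Sub n r → ℕ) :
    Integrable (fun Z => ((kik n r l 0 Z) ^ k) I J * ∏ S, He (O S) (Z S)) (gau n r) ∧
    ∫ Z, ((kik n r l 0 Z) ^ k) I J * ∏ S, He (O S) (Z S) ∂(gau n r) = w n r l k I J O := by
  induction k generalizing I O with
  | zero =>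
    have hint : Integrable (fun Z : Sub n r → ℝ => ∏ S, He (O S) (Z S)) (gau n r) :=
      Integrable.fintype_prod (f := fun S => He (O S)) fun S => (HEINT (O S)).1
    have hval : ∫ Z : Sub n r → ℝ, ∏ S, He (O S) (Z S) ∂(gau n r) = if O = 0 then 1 else 0 := by
      unfold gau
      rw [integral_fintype_prod_eq_prod (f := fun S => He (O S))]
      simp only [(HEINT _).2]
      by_cases hO : O = 0
      · rw [if_pos hO]
        refine Finset.prod_eq_one fun S _ => ?_
        rw [hO, Pi.zero_apply, if_pos rfl]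
      · rw [if_neg hO]
        obtain ⟨S, hS⟩ := Function.ne_iff.1 hO
        exact Finset.prod_eq_zero (Finset.mem_univ S) (if_neg hS)
    simp only [pow_zero]
    refine ⟨hint.const_mul _, ?_⟩
    rw [integral_const_mul, hval, Matrix.one_apply]
    unfold w
    by_cases h1 : I = J
    · by_cases h2 : O = 0
      · simp [h1, h2]
      · simp [h1, h2]
    · simp [h1]
  | succ k ih =>
    -- the terms of the sum
    let F : Sub n l → (Sub n r → ℝ) → ℝ := fun K Z =>
      if h : (symmDiff I.1 K.1).card = r then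
        ((kik n r l 0 Z) ^ k) K J *
            ∏ S, He ((O + Pi.single ⟨symmDiff I.1 K.1, h⟩ 1 : Sub n r → ℕ) S) (Z S) +
          (O ⟨symmDiff I.1 K.1, h⟩ : ℝ) * (((kik n r l 0 Z) ^ k) K J *
            ∏ S, He ((O - Pi.single ⟨symmDiff I.1 K.1, h⟩ 1 : Sub n r → ℕ) S) (Z S))
      else 0
    have hF : ∀ Z : Sub n r → ℝ, ((kik n r l 0 Z) ^ (k + 1)) I J * ∏ S, He (O S) (Z S) =
        ∑ K, F K Z := by
      intro Z
      rw [pow_succ', Matrix.mul_apply, Finset.sum_mul]
      refine Finset.sum_congr rfl fun K _ => ?_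
      show kik n r l 0 Z I K * ((kik n r l 0 Z) ^ k) K J * ∏ S, He (O S) (Z S) = F K Z
      by_cases h : (symmDiff I.1 K.1).card = r
      · have e1 : kik n r l 0 Z I K = Z ⟨symmDiff I.1 K.1, h⟩ := by
          unfold kik
          rw [dif_pos h, zero_add]
        have e2 : F K Z = ((kik n r l 0 Z) ^ k) K J *
            ∏ S, He ((O + Pi.single ⟨symmDiff I.1 K.1, h⟩ 1 : Sub n r → ℕ) S) (Z S) +
          (O ⟨symmDiff I.1 K.1, h⟩ : ℝ) * (((kik n r l 0 Z) ^ k) K J *
            ∏ S, He ((O - Pi.single ⟨symmDiff I.1 K.1, h⟩ 1 : Sub n r → ℕ) S) (Z S)) := by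
          simp only [F]
          rw [dif_pos h]
        rw [e1, e2]
        have e3 := prod_step O Z ⟨symmDiff I.1 K.1, h⟩
        calc Z ⟨symmDiff I.1 K.1, h⟩ * ((kik n r l 0 Z) ^ k) K J * ∏ S, He (O S) (Z S) =
            ((kik n r l 0 Z) ^ k) K J *
              (Z ⟨symmDiff I.1 K.1, h⟩ * ∏ S, He (O S) (Z S)) := by ring
          _ = _ := by
            rw [e3]
            ring
      · have e1 : kik n r l 0 Z I K = 0 := by
          unfold kik
          rw [dif_neg h]
        have e2 : F K Z = 0 := by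
          simp only [F]
          rw [dif_neg h]
        rw [e1, e2, zero_mul, zero_mul]
    have hint : ∀ K, Integrable (F K) (gau n r) := by
      intro K
      by_cases h : (symmDiff I.1 K.1).card = r
      · have e2 : F K = fun Z => ((kik n r l 0 Z) ^ k) K J *
            ∏ S, He ((O + Pi.single ⟨symmDiff I.1 K.1, h⟩ 1 : Sub n r → ℕ) S) (Z S) +
          (O ⟨symmDiff I.1 K.1, h⟩ : ℝ) * (((kik n r l 0 Z) ^ k) K J *
            ∏ S, He ((O - Pi.single ⟨symmDiff I.1 K.1, h⟩ 1 : Sub n r → ℕ) S) (Z S)) := by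
          funext Z
          simp only [F]
          rw [dif_pos h]
        rw [e2]
        exact (ih K _).1.add ((ih K _).1.const_mul _)
      · have e2 : F K = fun _ => 0 := by
          funext Z
          simp only [F]
          rw [dif_neg h]
        rw [e2]
        exact integrable_zero _ _ _
    have hval : ∀ K, ∫ Z, F K Z ∂(gau n r) =
        if h : (symmDiff I.1 K.1).card = r then
          w n r l k K J (O + Pi.single ⟨symmDiff I.1 K.1, h⟩ 1) +
            (O ⟨symmDiff I.1 K.1, h⟩ : ℝ) *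
              w n r l k K J (O - Pi.single ⟨symmDiff I.1 K.1, h⟩ 1)
        else 0 := by
      intro K
      by_cases h : (symmDiff I.1 K.1).card = r
      · have e2 : F K = fun Z => ((kik n r l 0 Z) ^ k) K J *
            ∏ S, He ((O + Pi.single ⟨symmDiff I.1 K.1, h⟩ 1 : Sub n r → ℕ) S) (Z S) +
          (O ⟨symmDiff I.1 K.1, h⟩ : ℝ) * (((kik n r l 0 Z) ^ k) K J *
            ∏ S, He ((O - Pi.single ⟨symmDiff I.1 K.1, h⟩ 1 : Sub n r → ℕ) S) (Z S)) := by
          funext Z
          simp only [F]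
          rw [dif_pos h]
        rw [e2, dif_pos h, integral_add (ih K _).1 ((ih K _).1.const_mul _), integral_const_mul,
          (ih K _).2, (ih K _).2]
      · have e2 : F K = fun _ => 0 := by
          funext Z
          simp only [F]
          rw [dif_neg h]
        rw [e2, dif_neg h, integral_zero]
    simp only [hF]
    refine ⟨integrable_finsetSum _ fun K _ => hint K, ?_⟩
    rw [integral_finsetSum _ fun K _ => hint K]
    simp only [hval]
    rfl

end KK14
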